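import Pool.Agent.W758.AHC.Stm

/-! Part REC of project AHC: the recursion step. -/

set_option autoImplicit false

namespace Pool.Agent.W638.AHC

open Pool.Agent.W758.AHC

theorem inter_erase {ι : Type} [DecidableEq ι] (a b : Finset ι) (x : ι) (hx : x ∉ a) :
    a ∩ b.erase x = a ∩ b := by
  ext y
  simp only [Finset.mem_inter, Finset.mem_erase]
  constructor
  · rintro ⟨h1, _, h3⟩
    exact ⟨h1, h3⟩
  · rintro ⟨h1, h3⟩
    refine ⟨h1, ?_, h3⟩
    rintro rfl
    exact hx h1

theorem sub_erase {ι : Type} [DecidableEq ι] {a V : Finset ι} {x : ι} (h : a ⊆ V) (hx : x ∉ a) :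
    a ⊆ V.erase x := by
  intro y hy
  rw [Finset.mem_erase]
  refine ⟨?_, h hy⟩
  rintro rfl
  exact hx hy

theorem rec : S_REC := by
  intro hPF ι _ l V A B x hxV hA hB hAB IH hhalf
  have hV : V.card = (V.erase x).card + 1 := (Finset.card_erase_add_one hxV).symm
  have hP : 2 * Pmax l (V.erase x).card ≤ Pmax l V.card := by
    rw [hV]
    exact hPF.1 l _
  refine le_trans ?_ hP
  by_cases h0 : A.filter (fun a => x ∈ a) = ∅
  · have hxa : ∀ a ∈ A, x ∉ a := by
      intro a ha hx
      have : a ∈ A.filter (fun a => x ∈ a) := Finset.mem_filter.mpr ⟨ha, hx⟩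
      rw [h0] at this
      exact absurd this (Finset.notMem_empty a)
    have hA' : ∀ a ∈ A, a ⊆ V.erase x := fun a ha => sub_erase (hA a ha) (hxa a ha)
    have h1 := IH A (B.filter (fun b => x ∉ b)) hA'
      (fun b hb => sub_erase (hB b (Finset.mem_filter.mp hb).1) (Finset.mem_filter.mp hb).2)
      (fun a ha b hb => hAB a ha b (Finset.mem_filter.mp hb).1)
    have hinj : Set.InjOn (fun b : Finset ι => b.erase x) (B.filter (fun b => x ∈ b)) := by
      intro b hb b' hb' h
      have hb1 := (Finset.mem_filter.mp (Finset.mem_coe.mp hb)).2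
      have hb2 := (Finset.mem_filter.mp (Finset.mem_coe.mp hb')).2
      have h' : b.erase x = b'.erase x := h
      rw [← Finset.insert_erase hb1, ← Finset.insert_erase hb2, h']
    have h2 := IH A ((B.filter (fun b => x ∈ b)).image (fun b => b.erase x)) hA'
      (by
        intro b hb
        obtain ⟨b', hb', rfl⟩ := Finset.mem_image.mp hb
        exact Finset.erase_subset_erase x (hB b' (Finset.mem_filter.mp hb').1))
      (by
        intro a ha b hb
        obtain ⟨b', hb', rfl⟩ := Finset.mem_image.mp hb
        show (a ∩ b'.erase x).card = l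
        rw [inter_erase a b' x (hxa a ha)]
        exact hAB a ha b' (Finset.mem_filter.mp hb').1)
    rw [Finset.card_image_of_injOn hinj] at h2
    have h3 := Finset.card_filter_add_card_filter_not (s := B) (fun b => x ∈ b)
    have h4 : A.card * B.card = A.card * (B.filter (fun b => x ∈ b)).card +
        A.card * (B.filter (fun b => x ∉ b)).card := by
      rw [← mul_add, h3]
    omega
  · obtain ⟨a1, ha1⟩ := Finset.nonempty_iff_ne_empty.mpr h0
    obtain ⟨ha1A, ha1x⟩ := Finset.mem_filter.mp ha1
    have key : ∀ b ∈ B, ∀ b' ∈ B, x ∉ b → x ∈ b' → b.erase x = b'.erase x → False := by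
      intro b hb b' hb' hxb hxb' h
      rw [Finset.erase_eq_of_notMem hxb] at h
      have h1 := hAB a1 ha1A b hb
      have h2 := hAB a1 ha1A b' hb'
      have h3 : a1 ∩ b' = insert x (a1 ∩ b) := by
        rw [h]
        ext y
        simp only [Finset.mem_inter, Finset.mem_insert, Finset.mem_erase]
        constructor
        · rintro ⟨h5, h6⟩
          by_cases hy : y = x
          · exact Or.inl hy
          · exact Or.inr ⟨h5, hy, h6⟩
        · rintro (rfl | ⟨h5, _, h6⟩)
          · exact ⟨ha1x, hxb'⟩
          · exact ⟨h5, h6⟩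
      have h4 : x ∉ a1 ∩ b := fun h5 => hxb (Finset.mem_inter.mp h5).2
      rw [h3, Finset.card_insert_of_notMem h4] at h2
      omega
    have hinj : Set.InjOn (fun b : Finset ι => b.erase x) B := by
      intro b hb b' hb' h
      have hb := Finset.mem_coe.mp hb
      have hb' := Finset.mem_coe.mp hb'
      have h' : b.erase x = b'.erase x := h
      by_cases h1 : x ∈ b
      · by_cases h2 : x ∈ b'
        · rw [← Finset.insert_erase h1, ← Finset.insert_erase h2, h']
        · exact (key b' hb' b hb h2 h1 h'.symm).elim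
      · by_cases h2 : x ∈ b'
        · exact (key b hb b' hb' h1 h2 h').elim
        · rw [← Finset.erase_eq_of_notMem h1, ← Finset.erase_eq_of_notMem h2, h']
    have h1 := IH (A.filter (fun a => x ∉ a)) (B.image (fun b => b.erase x))
      (fun a ha => sub_erase (hA a (Finset.mem_filter.mp ha).1) (Finset.mem_filter.mp ha).2)
      (by
        intro b hb
        obtain ⟨b', hb', rfl⟩ := Finset.mem_image.mp hb
        exact Finset.erase_subset_erase x (hB b' hb'))
      (by
        intro a ha b hb
        obtain ⟨b', hb', rfl⟩ := Finset.mem_image.mp hb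
        show (a ∩ b'.erase x).card = l
        rw [inter_erase a b' x (Finset.mem_filter.mp ha).2]
        exact hAB a (Finset.mem_filter.mp ha).1 b' hb')
    rw [Finset.card_image_of_injOn hinj] at h1
    have h3 := Finset.card_filter_add_card_filter_not (s := A) (fun a => x ∈ a)
    have h4 : A.card ≤ 2 * (A.filter (fun a => x ∉ a)).card := by omega
    calc A.card * B.card ≤ (2 * (A.filter (fun a => x ∉ a)).card) * B.card :=
          Nat.mul_le_mul_right _ h4
      _ = 2 * ((A.filter (fun a => x ∉ a)).card * B.card) := by ring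
      _ ≤ 2 * Pmax l (V.erase x).card := Nat.mul_le_mul_left _ h1

end Pool.Agent.W638.AHC
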